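import Mathlib

set_option autoImplicit false

open scoped Topology
open Filter

namespace Pool.Agent.Results.MP_0aa9c3_an.Conv

lemma seq_conv (d : ℕ → ℝ) (h1 : Antitone fun n => |d n|)
    (h2 : Tendsto (fun n => d (n + 1) - d n) atTop (𝓝 0)) : ∃ L, Tendsto d atTop (𝓝 L) := by
  have hb : BddBelow (Set.range fun n => |d n|) := ⟨0, by rintro _ ⟨n, rfl⟩; exact abs_nonneg _⟩
  have hL := tendsto_atTop_ciInf h1 hb
  set L := ⨅ n, |d n| with hLdef
  have hle : ∀ n, L ≤ |d n| := fun n => ciInf_le hb n
  have h0 : 0 ≤ L := le_ciInf fun n => abs_nonneg _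
  rcases h0.eq_or_lt with h0 | h0
  · refine ⟨0, ?_⟩
    rw [← h0] at hL
    exact (tendsto_zero_iff_abs_tendsto_zero d).2 hL
  · have hev : ∀ᶠ n in atTop, |d (n + 1) - d n| < L := by
      have := h2.abs
      simp only [abs_zero] at this
      exact this.eventually (gt_mem_nhds h0)
    obtain ⟨N, hN⟩ := eventually_atTop.1 hev
    rcases le_total 0 (d N) with hs | hs
    · have hall : ∀ n, N ≤ n → 0 ≤ d n := by
        intro n hn
        induction n, hn using Nat.le_induction with
        | base => exact hs
        | succ n hn ih =>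
          have a := hN n hn
          have b := hle n
          rw [abs_of_nonneg ih] at b
          have := (abs_lt.1 a).1
          linarith
      refine ⟨L, hL.congr' ?_⟩
      filter_upwards [eventually_ge_atTop N] with n hn
      exact abs_of_nonneg (hall n hn)
    · have hall : ∀ n, N ≤ n → d n ≤ 0 := by
        intro n hn
        induction n, hn using Nat.le_induction with
        | base => exact hs
        | succ n hn ih =>
          have a := hN n hn
          have b := hle n
          rw [abs_of_nonpos ih] at b
          have := (abs_lt.1 a).2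
          linarith
      refine ⟨-L, hL.neg.congr' ?_⟩
      filter_upwards [eventually_ge_atTop N] with n hn
      rw [abs_of_nonpos (hall n hn), neg_neg]

lemma cont (T : ℝ → ℝ) (hT : ∀ x y, |T x - T y| ≤ |x - y|) : Continuous T := by
  have : LipschitzWith 1 T := LipschitzWith.of_dist_le_mul fun x y => by
    simpa [Real.dist_eq] using hT x y
  exact this.continuous

lemma down (T : ℝ → ℝ) (hT : ∀ x y, |T x - T y| ≤ |x - y|) (h : ∀ x, T x < x) (x y : ℝ) :
    ∃ L, Tendsto (fun n => T^[n] x - T^[n] y) atTop (𝓝 L) := by
  have hmono : Monotone fun x => x - T x := by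
    intro a b hab
    have := hT b a
    rw [abs_of_nonneg (sub_nonneg.2 hab)] at this
    have := (abs_le.1 this).2
    simp only
    linarith
  have hb : BddBelow (Set.range fun x => x - T x) :=
    ⟨0, by rintro _ ⟨z, rfl⟩; exact (sub_pos.2 (h z)).le⟩
  have hc := tendsto_atBot_ciInf hmono hb
  set c := ⨅ x, (x - T x)
  have horb : ∀ z, Tendsto (fun n => T^[n] z) atTop atBot := by
    intro z
    have ha : Antitone fun n => T^[n] z := antitone_nat_of_succ_le fun n => by
      rw [Function.iterate_succ_apply']; exact (h _).le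
    rcases tendsto_of_antitone ha with h1 | ⟨l, hl⟩
    · exact h1
    · exfalso
      have h2 : Tendsto (fun n => T^[n + 1] z) atTop (𝓝 l) := hl.comp (tendsto_add_atTop_nat 1)
      have h3 : Tendsto (fun n => T (T^[n] z)) atTop (𝓝 (T l)) :=
        ((cont T hT).tendsto l).comp hl
      simp only [Function.iterate_succ_apply'] at h2
      exact (h l).ne (tendsto_nhds_unique h3 h2)
  apply seq_conv
  · refine antitone_nat_of_succ_le fun n => ?_
    simp only [Function.iterate_succ_apply']
    exact hT _ _
  · have := (hc.comp (horb y)).sub (hc.comp (horb x))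
    rw [sub_self] at this
    refine this.congr fun n => ?_
    simp only [Function.comp, Function.iterate_succ_apply']
    ring

lemma free (T : ℝ → ℝ) (hT : ∀ x y, |T x - T y| ≤ |x - y|) (h : ∀ x, T x ≠ x) (x y : ℝ) :
    ∃ L, Tendsto (fun n => T^[n] x - T^[n] y) atTop (𝓝 L) := by
  have hc : Continuous fun x => x - T x := continuous_id.sub (cont T hT)
  by_cases h1 : ∀ x, T x < x
  · exact down T hT h1 x y
  · push Not at h1
    obtain ⟨a, ha⟩ := h1
    have h2 : ∀ x, x < T x := by
      intro b
      by_contra hb
      push Not at hb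
      have := intermediate_value_univ a b hc (show (0 : ℝ) ∈ Set.Icc (a - T a) (b - T b) from
        ⟨by linarith, by linarith⟩)
      obtain ⟨z, hz⟩ := this
      exact h z (by simp only at hz; linarith)
    have hit : ∀ n z, (fun z => -T (-z))^[n] z = -T^[n] (-z) := by
      intro n
      induction n with
      | zero => simp
      | succ n ih => intro z; simp only [Function.iterate_succ_apply', ih, neg_neg]
    obtain ⟨L, hL⟩ := down (fun z => -T (-z)) (fun p q => by
      have := hT (-q) (-p)
      rw [show -T (-p) - -T (-q) = T (-q) - T (-p) by ring]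
      rwa [show -q - -p = p - q by ring] at this) (fun z => by have := h2 (-z); linarith) (-y) (-x)
    refine ⟨L, hL.congr fun n => ?_⟩
    rw [hit, hit, neg_neg, neg_neg]
    ring

theorem result (T : ℝ → ℝ) (hT : ∀ x y, |T x - T y| ≤ |x - y|) :
    (∀ v ∈ closure (Set.range fun x => x - T x),
      (∀ w ∈ closure (Set.range fun x => x - T x), |v| ≤ |w|) → v ≠ 0 →
      {x | x = v + T x} = ∅ →
      ∀ x y, ∃ L, Tendsto (fun n : ℕ => T^[n] x - T^[n] y) atTop (𝓝 L)) ∧
    ((∀ x, T x ≠ x) → ∀ x y, ∃ L, Tendsto (fun n : ℕ => T^[n] x - T^[n] y) atTop (𝓝 L)) := by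
  refine ⟨fun v _ hmin hv _ x y => free T hT (fun z hz => hv ?_) x y, fun h x y => free T hT h x y⟩
  have := hmin (z - T z) (subset_closure ⟨z, rfl⟩)
  rw [hz, sub_self, abs_zero] at this
  exact abs_nonpos_iff.1 this

end Pool.Agent.Results.MP_0aa9c3_an.Conv
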